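import Mathlib

set_option autoImplicit false

/-!
Free groups are conjugacy separable (helper71, package B of row 1365).
-/

namespace Pool.Agent.H71CS


universe u

/-- The wreath product of `K` with `ZMod p`. -/
@[ext] structure Wr (p : ℕ) (K : Type*) where
  /-- the base component -/
  f : ZMod p → K
  /-- the top component -/
  a : ZMod p

namespace Wr

variable {p : ℕ} {K : Type*} [Group K]

instance : Mul (Wr p K) := ⟨fun x y => ⟨fun i => x.f i * y.f (i + x.a), x.a + y.a⟩⟩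
instance : One (Wr p K) := ⟨⟨fun _ => 1, 0⟩⟩
instance : Inv (Wr p K) := ⟨fun x => ⟨fun i => (x.f (i - x.a))⁻¹, -x.a⟩⟩

theorem mul_f (x y : Wr p K) (i : ZMod p) : (x * y).f i = x.f i * y.f (i + x.a) := rfl
theorem mul_a (x y : Wr p K) : (x * y).a = x.a + y.a := rfl
theorem one_f (i : ZMod p) : (1 : Wr p K).f i = 1 := rfl
theorem one_a : (1 : Wr p K).a = 0 := rfl
theorem inv_f (x : Wr p K) (i : ZMod p) : (x⁻¹).f i = (x.f (i - x.a))⁻¹ := rfl
theorem inv_a (x : Wr p K) : (x⁻¹).a = -x.a := rfl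

instance : Group (Wr p K) := Group.ofLeftAxioms
  (fun x y z => by
    ext i
    · simp only [mul_f, mul_a, mul_assoc, add_assoc]
    · simp only [mul_a, add_assoc])
  (fun x => by
    ext i
    · simp only [mul_f, one_f, one_a, one_mul, add_zero]
    · simp only [mul_a, one_a, zero_add])
  (fun x => by
    ext i
    · simp only [mul_f, inv_f, inv_a, one_f, sub_eq_add_neg, inv_mul_cancel]
    · simp only [mul_a, inv_a, one_a, neg_add_cancel])

/-- functoriality -/
def map {K' : Type*} [Group K'] (α : K →* K') : Wr p K →* Wr p K' where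
  toFun x := ⟨fun i => α (x.f i), x.a⟩
  map_one' := by
    ext i
    · simp only [one_f, map_one]
    · simp only [one_a]
  map_mul' x y := by
    ext i
    · simp only [mul_f, map_mul]
    · simp only [mul_a]

theorem map_f {K' : Type*} [Group K'] (α : K →* K') (x : Wr p K) (i : ZMod p) :
    (map α x).f i = α (x.f i) := rfl

theorem map_a {K' : Type*} [Group K'] (α : K →* K') (x : Wr p K) : (map α x).a = x.a := rfl

instance [NeZero p] [Finite K] : Finite (Wr p K) :=
  Finite.of_injective (fun x : Wr p K => (x.f, x.a)) fun x y h => by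
    have h1 := congrArg Prod.fst h
    have h2 := congrArg Prod.snd h
    exact Wr.ext h1 h2

end Wr

section

variable {p : ℕ} {X : Type u}

/-- the homomorphism to the wreath product -/
def Th {K : Type*} [Group K] (φ : X → ZMod p) (k : X × ZMod p → K) : FreeGroup X →* Wr p K :=
  FreeGroup.lift fun x => ⟨fun i => k (x, i), φ x⟩

open Classical in
/-- the labels -/
noncomputable def kk (p : ℕ) (x0 : X) : X × ZMod p → FreeGroup (X × ZMod p) :=
  fun q => if q.1 = x0 ∧ q.2 ≠ -1 then 1 else FreeGroup.of q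

/-- evaluation homomorphisms -/
def ev {A : Type*} [AddCommGroup A] (φ : X → A) : FreeGroup X →* Multiplicative A :=
  FreeGroup.lift fun x => Multiplicative.ofAdd (φ x)

theorem ev_comp {A B : Type*} [AddCommGroup A] [AddCommGroup B] (g : A →+ B) (φ : X → A)
    (u : FreeGroup X) : (ev (fun x => g (φ x)) u).toAdd = g (ev φ u).toAdd := by
  have h : ev (fun x => g (φ x)) = (AddMonoidHom.toMultiplicative g).comp (ev φ) := by
    ext x
    simp [ev]
  rw [h]
  rfl

theorem ev_add {A : Type*} [AddCommGroup A] (φ ψ : X → A) (u : FreeGroup X) :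
    (ev (fun x => φ x + ψ x) u).toAdd = (ev φ u).toAdd + (ev ψ u).toAdd := by
  have h : ev (fun x => φ x + ψ x) = ev φ * ev ψ := by
    ext x
    simp [ev]
  rw [h]
  rfl

theorem Th_a {K : Type*} [Group K] (φ : X → ZMod p) (k : X × ZMod p → K) (u : FreeGroup X) :
    (Th φ k u).a = (ev φ u).toAdd := by
  induction u using FreeGroup.induction_on with
  | C1 => simp [Wr.one_a]
  | of x => simp [Th, ev]
  | inv_of x h => rw [map_inv, map_inv, Wr.inv_a, h]; rfl
  | mul x y hx hy => rw [map_mul, map_mul, Wr.mul_a, hx, hy]; rfl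

theorem Th_comp {K K' : Type*} [Group K] [Group K'] (φ : X → ZMod p) (k : X × ZMod p → K)
    (α : K →* K') (u : FreeGroup X) (i : ZMod p) :
    (Th φ (fun q => α (k q)) u).f i = α ((Th φ k u).f i) := by
  have h : Th φ (fun q => α (k q)) = (Wr.map α).comp (Th φ k) := by
    apply FreeGroup.ext_hom
    intro x
    rw [MonoidHom.comp_apply]
    simp only [Th, FreeGroup.lift_apply_of]
    rfl
  rw [h]
  rfl

/-- the transversal -/
def tr (x0 : X) (i : ZMod p) : FreeGroup X := (FreeGroup.of x0) ^ i.val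

/-- the embedding -/
def rho (φ : X → ZMod p) (x0 : X) : FreeGroup (X × ZMod p) →* FreeGroup X :=
  FreeGroup.lift fun q => tr x0 q.2 * FreeGroup.of q.1 * (tr x0 (q.2 + φ q.1))⁻¹

theorem rho_kk (hp : 2 ≤ p) (φ : X → ZMod p) (x0 : X) (h0 : φ x0 = 1) (q : X × ZMod p) :
    rho φ x0 (kk p x0 q) = tr x0 q.2 * FreeGroup.of q.1 * (tr x0 (q.2 + φ q.1))⁻¹ := by
  have : NeZero p := ⟨by omega⟩
  have : Fact (1 < p) := ⟨by omega⟩
  unfold kk
  split_ifs with h
  · obtain ⟨h1, h2⟩ := h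
    rw [map_one, h1, h0]
    have h3 : q.2.val + 1 < p := by
      have h4 := ZMod.val_lt q.2
      by_contra h5
      have h6 : q.2.val + 1 = p := by omega
      apply h2
      have h7 : ((q.2.val + 1 : ℕ) : ZMod p) = 0 := by rw [h6]; exact ZMod.natCast_self p
      rw [Nat.cast_add, ZMod.natCast_val, ZMod.cast_id, Nat.cast_one] at h7
      exact eq_neg_of_add_eq_zero_left h7
    have h8 : (q.2 + 1).val = q.2.val + 1 := by
      have h9 := ZMod.val_add_of_lt (a := q.2) (b := 1) (by rw [ZMod.val_one]; exact h3)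
      rw [ZMod.val_one] at h9
      exact h9
    unfold tr
    rw [h8, pow_succ]
    group
  · unfold rho
    rw [FreeGroup.lift_apply_of]

theorem rho_Th (hp : 2 ≤ p) (φ : X → ZMod p) (x0 : X) (h0 : φ x0 = 1) (w : FreeGroup X) :
    ∀ i, rho φ x0 ((Th φ (kk p x0) w).f i) =
      tr x0 i * w * (tr x0 (i + (Th φ (kk p x0) w).a))⁻¹ := by
  have hinv : ∀ w : FreeGroup X, (∀ i, rho φ x0 ((Th φ (kk p x0) w).f i) =
      tr x0 i * w * (tr x0 (i + (Th φ (kk p x0) w).a))⁻¹) →
      ∀ i, rho φ x0 ((Th φ (kk p x0) w⁻¹).f i) =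
      tr x0 i * w⁻¹ * (tr x0 (i + (Th φ (kk p x0) w⁻¹).a))⁻¹ := by
    intro w hw i
    rw [map_inv, Wr.inv_f, Wr.inv_a, map_inv, hw, sub_add_cancel, ← sub_eq_add_neg]
    group
  induction w using FreeGroup.induction_on with
  | C1 =>
    intro i
    rw [map_one, Wr.one_f, Wr.one_a, map_one, add_zero]
    group
  | of x =>
    intro i
    have h1 : Th φ (kk p x0) (FreeGroup.of x) = ⟨fun i => kk p x0 (x, i), φ x⟩ := by
      simp [Th]
    show rho φ x0 ((Th φ (kk p x0) (FreeGroup.of x)).f i) = tr x0 i * FreeGroup.of x *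
      (tr x0 (i + (Th φ (kk p x0) (FreeGroup.of x)).a))⁻¹
    rw [h1]
    exact rho_kk hp φ x0 h0 (x, i)
  | inv_of x h => exact hinv _ h
  | mul x y hx hy =>
    intro i
    rw [map_mul, Wr.mul_f, Wr.mul_a, map_mul, hx, hy, add_assoc]
    group

/-- separated by a finite quotient -/
def Sep (u v : FreeGroup X) : Prop :=
  ∃ (Q : Type) (_ : Group Q) (_ : Finite Q) (ψ : FreeGroup X →* Q), ¬ IsConj (ψ u) (ψ v)

theorem Sep.symm {u v : FreeGroup X} (h : Sep u v) : Sep v u := by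
  obtain ⟨Q, i1, i2, ψ, h⟩ := h
  exact ⟨Q, i1, i2, ψ, fun h' => h h'.symm⟩

theorem not_conj_f (hp : 2 ≤ p) (φ : X → ZMod p) (x0 : X) (h0 : φ x0 = 1) {u v : FreeGroup X}
    (hu : (ev φ u).toAdd = 0) (hv : (ev φ v).toAdd = 0) (h : ¬ IsConj u v) (i j : ZMod p) :
    ¬ IsConj ((Th φ (kk p x0) u).f i) ((Th φ (kk p x0) v).f j) := by
  intro hc
  apply h
  have h1 := (rho φ x0).map_isConj hc
  rw [rho_Th hp φ x0 h0, rho_Th hp φ x0 h0, Th_a, Th_a, hu, hv, add_zero, add_zero] at h1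
  have h2 : IsConj u (tr x0 i * u * (tr x0 i)⁻¹) := isConj_iff.2 ⟨_, rfl⟩
  have h3 : IsConj v (tr x0 j * v * (tr x0 j)⁻¹) := isConj_iff.2 ⟨_, rfl⟩
  exact (h2.trans h1).trans h3.symm

theorem sep_step [NeZero p] (φ : X → ZMod p) (k : X × ZMod p → FreeGroup (X × ZMod p))
    {u v : FreeGroup X} (hu : (ev φ u).toAdd = 0) (i0 : ZMod p)
    (h : ∀ j, Sep ((Th φ k u).f i0) ((Th φ k v).f j)) : Sep u v := by
  choose Q iQ fQ ψ hψ using h
  let ψ' : FreeGroup (X × ZMod p) →* (∀ j, Q j) := MonoidHom.pi ψ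
  refine ⟨Wr p (∀ j, Q j), inferInstance, inferInstance, Th φ (fun q => ψ' (k q)), ?_⟩
  intro hc
  obtain ⟨g, hg⟩ := isConj_iff.1 hc.symm
  have h1 : g * Th φ (fun q => ψ' (k q)) v = Th φ (fun q => ψ' (k q)) u * g := by
    rw [← hg]
    group
  have h2 := congrArg (fun x => Wr.f x i0) h1
  simp only [Wr.mul_f] at h2
  rw [Th_a, hu, add_zero, Th_comp, Th_comp] at h2
  have h3 := congrFun h2 (i0 + g.a)
  simp only [Pi.mul_apply] at h3
  apply hψ (i0 + g.a)
  refine IsConj.symm (isConj_iff.2 ⟨g.f i0 (i0 + g.a), ?_⟩)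
  rw [mul_inv_eq_iff_eq_mul]
  exact h3

theorem letter (φ : X → ZMod p) (x0 : X) (b : X × Bool) (i : ZMod p) :
    ∃ L : List ((X × ZMod p) × Bool), L.length ≤ 1 ∧
      FreeGroup.mk L = (Th φ (kk p x0) (FreeGroup.mk [b])).f i := by
  obtain ⟨x, b⟩ := b
  cases b with
  | true =>
    have h1 : (Th φ (kk p x0) (FreeGroup.mk [(x, true)])).f i = kk p x0 (x, i) := by
      show (Th φ (kk p x0) (FreeGroup.of x)).f i = _
      simp [Th]
    rw [h1]
    unfold kk
    split_ifs
    · exact ⟨[], by simp, rfl⟩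
    · exact ⟨[((x, i), true)], by simp, rfl⟩
  | false =>
    have h1 : (Th φ (kk p x0) (FreeGroup.mk [(x, false)])).f i =
        (kk p x0 (x, i - φ x))⁻¹ := by
      show (Th φ (kk p x0) (FreeGroup.of x)⁻¹).f i = _
      rw [map_inv, Wr.inv_f]
      simp [Th]
    rw [h1]
    unfold kk
    split_ifs
    · exact ⟨[], by simp, by rw [inv_one]; rfl⟩
    · exact ⟨[((x, i - φ x), false)], by simp, rfl⟩

theorem letter0 (hp : 2 ≤ p) (φ : X → ZMod p) (x0 : X) (h0 : φ x0 = 1) (b : Bool) :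
    ∃ i, (Th φ (kk p x0) (FreeGroup.mk [(x0, b)])).f i = 1 := by
  have : Fact (1 < p) := ⟨by omega⟩
  have hne : (0 : ZMod p) ≠ -1 := by
    intro h
    have := neg_eq_zero.1 h.symm
    exact one_ne_zero this
  cases b with
  | true =>
    refine ⟨0, ?_⟩
    have h1 : (Th φ (kk p x0) (FreeGroup.mk [(x0, true)])).f 0 = kk p x0 (x0, 0) := by
      show (Th φ (kk p x0) (FreeGroup.of x0)).f 0 = _
      simp [Th]
    rw [h1]
    unfold kk
    rw [if_pos ⟨rfl, hne⟩]
  | false =>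
    refine ⟨1, ?_⟩
    have h1 : (Th φ (kk p x0) (FreeGroup.mk [(x0, false)])).f 1 =
        (kk p x0 (x0, 1 - φ x0))⁻¹ := by
      show (Th φ (kk p x0) (FreeGroup.of x0)⁻¹).f 1 = _
      rw [map_inv, Wr.inv_f]
      simp [Th]
    rw [h1, h0, sub_self]
    unfold kk
    rw [if_pos ⟨rfl, hne⟩, inv_one]

theorem mk_cons (b : X × Bool) (L : List (X × Bool)) :
    FreeGroup.mk (b :: L) = FreeGroup.mk [b] * FreeGroup.mk L := rfl

theorem lists_le (φ : X → ZMod p) (x0 : X) : ∀ (L : List (X × Bool)) (i : ZMod p),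
    ∃ L' : List ((X × ZMod p) × Bool), L'.length ≤ L.length ∧
      FreeGroup.mk L' = (Th φ (kk p x0) (FreeGroup.mk L)).f i
  | [], i => ⟨[], le_refl _, by
      show (1 : FreeGroup (X × ZMod p)) = (Th φ (kk p x0) 1).f i
      rw [map_one]
      rfl⟩
  | b :: L, i => by
      obtain ⟨L0, h0, e0⟩ := letter φ x0 b i
      obtain ⟨L1, h1, e1⟩ := lists_le φ x0 L (i + (Th φ (kk p x0) (FreeGroup.mk [b])).a)
      refine ⟨L0 ++ L1, ?_, ?_⟩
      · rw [List.length_append, List.length_cons]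
        omega
      · rw [mk_cons, map_mul, Wr.mul_f, ← e0, ← e1, FreeGroup.mul_mk]

theorem lists_lt (hp : 2 ≤ p) (φ : X → ZMod p) (x0 : X) (h0 : φ x0 = 1) :
    ∀ (L : List (X × Bool)), (∃ b, (x0, b) ∈ L) →
    ∃ (i : ZMod p) (L' : List ((X × ZMod p) × Bool)), L'.length < L.length ∧
      FreeGroup.mk L' = (Th φ (kk p x0) (FreeGroup.mk L)).f i
  | [], h => by simp at h
  | c :: L, h => by
      obtain ⟨b, hb⟩ := h
      rcases List.mem_cons.1 hb with rfl | hb
      · obtain ⟨i, hi⟩ := letter0 hp φ x0 h0 b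
        obtain ⟨L1, h1, e1⟩ := lists_le φ x0 L
          (i + (Th φ (kk p x0) (FreeGroup.mk [(x0, b)])).a)
        refine ⟨i, L1, ?_, ?_⟩
        · rw [List.length_cons]
          omega
        · rw [mk_cons, map_mul, Wr.mul_f, hi, one_mul, e1]
      · obtain ⟨i', L1, h1, e1⟩ := lists_lt hp φ x0 h0 L ⟨b, hb⟩
        obtain ⟨L0, h2, e0⟩ := letter φ x0 c (i' - (Th φ (kk p x0) (FreeGroup.mk [c])).a)
        refine ⟨i' - (Th φ (kk p x0) (FreeGroup.mk [c])).a, L0 ++ L1, ?_, ?_⟩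
        · rw [List.length_append, List.length_cons]
          omega
        · rw [mk_cons, map_mul, Wr.mul_f, sub_add_cancel, ← e0, ← e1, FreeGroup.mul_mk]

end

section choice

variable {X : Type u}

open Classical in
/-- the exponent sum of `x` -/
noncomputable def ex (x : X) (u : FreeGroup X) : ℤ :=
  (ev (fun y => if y = x then (1 : ℤ) else 0) u).toAdd

open Classical in
theorem ev_ind {p : ℕ} (x : X) (u : FreeGroup X) :
    (ev (fun y => if y = x then (1 : ZMod p) else 0) u).toAdd = (ex x u : ZMod p) := by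
  have h := ev_comp (Int.castAddHom (ZMod p)) (fun y => if y = x then (1 : ℤ) else 0) u
  have h1 : (fun y => (Int.castAddHom (ZMod p)) (if y = x then (1 : ℤ) else 0)) =
      fun y => if y = x then (1 : ZMod p) else 0 := by
    funext y
    split_ifs <;> simp
  rw [h1] at h
  exact h

open Classical in
theorem eq_pow {x : X} (L : List (X × Bool)) (h : ∀ b ∈ L, b.1 = x) :
    FreeGroup.mk L = (FreeGroup.of x) ^ (ex x (FreeGroup.mk L)) := by
  have key : ∀ L : List (X × Bool), (∀ b ∈ L, b.1 = x) →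
      (zpowersHom (FreeGroup X) (FreeGroup.of x)) (ev (fun y => if y = x then (1 : ℤ) else 0)
        (FreeGroup.mk L)) = FreeGroup.mk L := by
    intro L
    induction L with
    | nil =>
      intro _
      show (zpowersHom (FreeGroup X) (FreeGroup.of x)) (ev _ 1) = 1
      rw [map_one, map_one]
    | cons b L ih =>
      intro hL
      rw [mk_cons, map_mul, map_mul, ih fun c hc => hL c (List.mem_cons_of_mem _ hc)]
      congr 1
      obtain ⟨y, b⟩ := b
      have hy : y = x := hL (y, b) (by simp)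
      subst hy
      cases b with
      | true =>
        show (zpowersHom (FreeGroup X) (FreeGroup.of y)) (ev _ (FreeGroup.of y)) = FreeGroup.of y
        simp [ev]
      | false =>
        show (zpowersHom (FreeGroup X) (FreeGroup.of y)) (ev _ (FreeGroup.of y)⁻¹) =
          (FreeGroup.of y)⁻¹
        rw [map_inv, map_inv]
        simp [ev]
  have := key L h
  rw [zpowersHom_apply] at this
  exact this.symm

open Classical in
theorem choice (L1 L2 : List (X × Bool)) (h : ¬ IsConj (FreeGroup.mk L1) (FreeGroup.mk L2)) :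
    Sep (FreeGroup.mk L1) (FreeGroup.mk L2) ∨
    ∃ (p : ℕ) (φ : X → ZMod p) (x0 : X), 2 ≤ p ∧ φ x0 = 1 ∧ (∃ b, (x0, b) ∈ L1 ++ L2) ∧
      (ev φ (FreeGroup.mk L1)).toAdd = 0 ∧ (ev φ (FreeGroup.mk L2)).toAdd = 0 := by
  by_cases hE : ∀ x, ex x (FreeGroup.mk L1) = ex x (FreeGroup.mk L2)
  swap
  · left
    push Not at hE
    obtain ⟨x, hx⟩ := hE
    set m := (ex x (FreeGroup.mk L1) - ex x (FreeGroup.mk L2)).natAbs + 1 with hm
    have : NeZero m := ⟨by omega⟩
    refine ⟨Multiplicative (ZMod m), inferInstance, inferInstance,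
      ev (fun y => if y = x then (1 : ZMod m) else 0), ?_⟩
    rw [isConj_iff_eq]
    intro h1
    have h2 := congrArg Multiplicative.toAdd h1
    rw [ev_ind, ev_ind] at h2
    have h3 : ((ex x (FreeGroup.mk L1) - ex x (FreeGroup.mk L2) : ℤ) : ZMod m) = 0 := by
      rw [Int.cast_sub, h2, sub_self]
    rw [ZMod.intCast_zmod_eq_zero_iff_dvd] at h3
    have h4 := Int.eq_zero_of_abs_lt_dvd h3 (by rw [Int.abs_eq_natAbs]; omega)
    exact hx (by omega)
  right
  by_cases hA : ∃ x, (∃ b, (x, b) ∈ L1 ++ L2) ∧ ex x (FreeGroup.mk L1) ≠ 1 ∧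
      ex x (FreeGroup.mk L1) ≠ -1
  · obtain ⟨x, hocc, h1, h2⟩ := hA
    obtain ⟨p, hp, hdvd⟩ : ∃ p : ℕ, 2 ≤ p ∧ (p : ℤ) ∣ ex x (FreeGroup.mk L1) := by
      by_cases h3 : ex x (FreeGroup.mk L1) = 0
      · exact ⟨2, le_refl _, by rw [h3]; exact dvd_zero _⟩
      · exact ⟨(ex x (FreeGroup.mk L1)).natAbs, by omega, Int.natAbs_dvd.2 dvd_rfl⟩
    refine ⟨p, fun y => if y = x then 1 else 0, x, hp, if_pos rfl, hocc, ?_, ?_⟩
    · rw [ev_ind, ZMod.intCast_zmod_eq_zero_iff_dvd]
      exact hdvd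
    · rw [ev_ind, ZMod.intCast_zmod_eq_zero_iff_dvd, ← hE]
      exact hdvd
  push Not at hA
  by_cases hB : ∃ x y, x ≠ y ∧ (∃ b, (x, b) ∈ L1 ++ L2) ∧ ∃ b, (y, b) ∈ L1 ++ L2
  · obtain ⟨x, y, hxy, hx, hy⟩ := hB
    have key : ∀ z, (∃ b, (z, b) ∈ L1 ++ L2) → (ex z (FreeGroup.mk L1) : ZMod 2) = 1 := by
      intro z hz
      by_cases h1 : ex z (FreeGroup.mk L1) = 1
      · rw [h1]; decide
      · rw [hA z hz h1]; decide
    have hsum : ∀ u : FreeGroup X, (ev (fun z => (if z = x then (1 : ZMod 2) else 0) +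
        if z = y then 1 else 0) u).toAdd = (ex x u : ZMod 2) + (ex y u : ZMod 2) := by
      intro u
      rw [ev_add, ev_ind, ev_ind]
    refine ⟨2, fun z => (if z = x then (1 : ZMod 2) else 0) + if z = y then 1 else 0, x,
      le_refl _, ?_, hx, ?_, ?_⟩
    · simp [hxy]
    · rw [hsum, key x hx, key y hy]; decide
    · rw [hsum, ← hE, ← hE, key x hx, key y hy]; decide
  exfalso
  apply h
  push Not at hB
  rcases hL : L1 ++ L2 with _ | ⟨b, L⟩
  · rw [List.append_eq_nil_iff] at hL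
    rw [hL.1, hL.2]
  · have hb : b ∈ L1 ++ L2 := by rw [hL]; simp
    have hall : ∀ c ∈ L1 ++ L2, c.1 = b.1 := by
      intro c hc
      by_contra hne
      exact hB c.1 b.1 hne ⟨c.2, hc⟩ b.2 hb
    rw [eq_pow L1 fun c hc => hall c (List.mem_append_left _ hc),
      eq_pow L2 fun c hc => hall c (List.mem_append_right _ hc), hE]

end choice

theorem sep_lists (n : ℕ) : ∀ (X : Type u) (L1 L2 : List (X × Bool)),
    L1.length + L2.length ≤ n → ¬ IsConj (FreeGroup.mk L1) (FreeGroup.mk L2) →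
    Sep (FreeGroup.mk L1) (FreeGroup.mk L2) := by
  induction n using Nat.strong_induction_on with
  | _ n ih =>
  intro X L1 L2 hn h
  rcases choice L1 L2 h with hs | ⟨p, φ, x0, hp, h0, hocc, hu, hv⟩
  · exact hs
  have : NeZero p := ⟨by omega⟩
  obtain ⟨b, hb⟩ := hocc
  rcases List.mem_append.1 hb with hb | hb
  · obtain ⟨i0, M1, hM1, e1⟩ := lists_lt hp φ x0 h0 L1 ⟨b, hb⟩
    refine sep_step φ (kk p x0) hu i0 fun j => ?_
    obtain ⟨M2, hM2, e2⟩ := lists_le φ x0 L2 j
    have h1 := not_conj_f hp φ x0 h0 hu hv h i0 j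
    rw [← e1, ← e2] at h1 ⊢
    exact ih (M1.length + M2.length) (by omega) _ M1 M2 le_rfl h1
  · obtain ⟨i0, M2, hM2, e2⟩ := lists_lt hp φ x0 h0 L2 ⟨b, hb⟩
    refine Sep.symm (sep_step φ (kk p x0) hv i0 fun j => ?_)
    obtain ⟨M1, hM1, e1⟩ := lists_le φ x0 L1 j
    have h1 := not_conj_f hp φ x0 h0 hv hu (fun h' => h h'.symm) i0 j
    rw [← e1, ← e2] at h1 ⊢
    exact ih (M2.length + M1.length) (by omega) _ M2 M1 le_rfl h1

/-- Free groups are conjugacy separable. -/
theorem free_conj_sep {X : Type*} (u v : FreeGroup X) (h : ¬ IsConj u v) :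
    ∃ (Q : Type) (_ : Group Q) (_ : Finite Q) (ψ : FreeGroup X →* Q),
      ¬ IsConj (ψ u) (ψ v) := by
  obtain ⟨L1, rfl⟩ := Quot.exists_rep u
  obtain ⟨L2, rfl⟩ := Quot.exists_rep v
  exact sep_lists _ X L1 L2 le_rfl h

end Pool.Agent.H71CS
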